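import Pool.Agent.H534R3.XApp
import Pool.Agent.H534R3.PiThree

/-!
# Normality to countably many real bases: simultaneous reductions

Two real bases of absolute value greater than one are in the same class if the ratio of the
logarithms of their absolute values is rational. For every countable set `A` of real bases and
every assignment of countable intersections of countable unions of closed sets `B α` in a
zero-dimensional Polish space `Y` to the bases `α ∈ A`, the same set for bases in the same class,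
there is one continuous map `f : Y → ℝ` such that for every `α ∈ A` the number `f y` is normal to
the base `α` if and only if `y ∈ B α`.

So the numbers normal to all bases in `A` form a complete set of the third multiplicative class for
every nonempty countable `A`, and the numbers normal to some base in `A` form a complete set of the
fourth additive class for every countable `A` that meets infinitely many classes.
-/

set_option autoImplicit false

open Filter Topology

namespace Pool.Agent.Results.MP_26ac3f_lc.SimultaneousReduction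

/-- The sequence `x` is uniformly distributed modulo one. -/
def IsUD (x : ℕ → ℝ) : Prop := ∀ s t : ℝ, 0 ≤ s → s ≤ t → t ≤ 1 →
  Tendsto
    (fun N : ℕ =>
      (((Finset.range N).filter (fun n => s ≤ Int.fract (x n) ∧ Int.fract (x n) < t)).card : ℝ)
        / (N : ℝ))
    atTop (nhds (t - s))

/-- The set `N(α)` of the reals `ξ` such that `ξ α ^ n` is uniformly distributed modulo one. -/
def NormalTo (α : ℝ) : Set ℝ := {ξ | IsUD (fun n => ξ * α ^ n)}

/-- `θ` is a Pisot number: a real algebraic integer greater than one all of whose other conjugates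
have absolute value less than one. -/
def IsPisot (θ : ℝ) : Prop :=
  1 < θ ∧ IsIntegral ℤ θ ∧ ∀ z : ℂ, Polynomial.aeval z (minpoly ℚ θ) = 0 → z ≠ (θ : ℂ) → ‖z‖ < 1

/-- `B` is a countable intersection of countable unions of closed sets. -/
def IsPiThree {X : Type} [TopologicalSpace X] (B : Set X) : Prop :=
  ∃ F : ℕ → ℕ → Set X, (∀ i j, IsClosed (F i j)) ∧ B = ⋂ i, ⋃ j, F i j

/-- `B` is a countable union of countable intersections of countable unions of closed sets. -/
def IsSigmaFour {X : Type} [TopologicalSpace X] (B : Set X) : Prop :=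
  ∃ F : ℕ → ℕ → ℕ → Set X, (∀ n i j, IsClosed (F n i j)) ∧ B = ⋃ n, ⋂ i, ⋃ j, F n i j

/-- `X` has a base of clopen sets. -/
def IsZeroDimensional (X : Type) [TopologicalSpace X] : Prop :=
  ∃ b : Set (Set X), TopologicalSpace.IsTopologicalBasis b ∧ ∀ s ∈ b, IsClopen s

/-- `A` is in the third multiplicative class, and every such subset of a zero-dimensional Polish
space is a continuous preimage of `A`. -/
def PiThreeComplete (A : Set ℝ) : Prop := IsPiThree A ∧
  ∀ (Y : Type) [TopologicalSpace Y] [PolishSpace Y], IsZeroDimensional Y →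
    ∀ B : Set Y, IsPiThree B → ∃ f : Y → ℝ, Continuous f ∧ B = f ⁻¹' A

/-- `A` is in the fourth additive class, and every such subset of a zero-dimensional Polish
space is a continuous preimage of `A`. -/
def SigmaFourComplete (A : Set ℝ) : Prop := IsSigmaFour A ∧
  ∀ (Y : Type) [TopologicalSpace Y] [PolishSpace Y], IsZeroDimensional Y →
    ∀ B : Set Y, IsSigmaFour B → ∃ f : Y → ℝ, Continuous f ∧ B = f ⁻¹' A

theorem isPisot_nat (n : ℕ) (hn : 1 < n) : IsPisot n := by
  refine ⟨by exact_mod_cast hn, ?_, ?_⟩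
  · have : IsIntegral ℤ ((algebraMap ℤ ℝ) n) := isIntegral_algebraMap
    simpa using this
  · intro z hz hz2
    exfalso
    have h1 : minpoly ℚ (n : ℝ) = Polynomial.X - Polynomial.C (n : ℚ) := by
      have := minpoly.eq_X_sub_C ℝ (n : ℚ)
      simpa using this
    rw [h1] at hz
    simp only [map_sub, Polynomial.aeval_X, Polynomial.aeval_C] at hz
    apply hz2
    rw [sub_eq_zero] at hz
    rw [hz]
    simp

theorem countable_pisot : {α : ℝ | IsPisot |α|}.Countable := by
  have h1 : {x : ℝ | IsAlgebraic ℤ x}.Countable := Algebraic.countable ℤ ℝ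
  refine h1.mono fun α hα => ?_
  have h2 : IsAlgebraic ℤ |α| := hα.2.1.isAlgebraic
  change IsAlgebraic ℤ α
  rcases abs_choice α with h | h
  · rwa [h] at h2
  · rw [h] at h2
    have := h2.neg
    rwa [neg_neg] at this

theorem exists_inducing (Y : Type) [TopologicalSpace Y] [SecondCountableTopology Y]
    (hY : IsZeroDimensional Y) : ∃ e : Y → ℕ → ℕ, IsInducing e := by
  classical
  obtain ⟨b, hb, hclopen⟩ := hY
  obtain ⟨b', hb'b, hb'c, hb'⟩ := hb.exists_countable
  rcases isEmpty_or_nonempty Y with hE | hE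
  · refine ⟨fun _ _ => 0, ⟨?_⟩⟩
    exact Subsingleton.elim _ _
  · have hne : b'.Nonempty := by
      obtain ⟨y⟩ := hE
      obtain ⟨s, hs, _⟩ := hb'.exists_subset_of_mem_open (Set.mem_univ y) isOpen_univ
      exact ⟨s, hs⟩
    obtain ⟨U, hU⟩ := hb'c.exists_eq_range hne
    have hUc : ∀ n, IsClopen (U n) := fun n => hclopen _ (hb'b (by rw [hU]; exact ⟨n, rfl⟩))
    refine ⟨fun y n => if y ∈ U n then 1 else 0, ?_⟩
    rw [isInducing_iff_nhds]
    intro y
    refine le_antisymm ?_ ?_
    · rw [← Filter.tendsto_iff_comap, tendsto_pi_nhds]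
      intro n
      refine tendsto_const_nhds.congr' ?_
      by_cases hy : y ∈ U n
      · filter_upwards [(hUc n).isOpen.mem_nhds hy] with y' hy'
        rw [if_pos hy, if_pos hy']
      · filter_upwards [(hUc n).compl.isOpen.mem_nhds hy] with y' hy'
        rw [if_neg hy, if_neg hy']
    · intro s hs
      obtain ⟨t, ht, hyt, hts⟩ := hb'.mem_nhds_iff.1 hs
      rw [hU] at ht
      obtain ⟨n, rfl⟩ := ht
      rw [Filter.mem_comap]
      refine ⟨{v : ℕ → ℕ | v n = 1}, ?_, ?_⟩
      · have h1 : IsOpen {v : ℕ → ℕ | v n = 1} :=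
          (isOpen_discrete {1}).preimage (continuous_apply n)
        exact h1.mem_nhds (by simp [hyt])
      · intro y' hy'
        refine hts ?_
        by_contra hcon
        have : (if y' ∈ U n then 1 else 0) = 1 := hy'
        rw [if_neg hcon] at this
        exact zero_ne_one this

open Pool.Agent.H534R3.UDist Pool.Agent.H534R3.Rota

theorem rel_refl {α : ℕ → ℝ} (hα : ∀ i, 1 < |α i|) (i : ℕ) : rel α i i := by
  rw [rel_iff]
  refine ⟨1, ?_⟩
  rw [div_self (log_abs_pos hα i).ne']
  norm_num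

/-- The simultaneous reduction, in sequence form. -/
theorem reduce_all (α : ℕ → ℝ) (hα : ∀ i, 1 < |α i|) (κ : ℕ → ℕ)
    (hκrel : ∀ i i', rel α i i' → κ i = κ i') :
    ∃ g : (ℕ → ℕ → ℕ) → ℝ, Continuous g ∧
      ∀ W i, UD (fun n => g W * α i ^ n) ↔ Tendsto (W (κ i)) atTop atTop := by
  obtain ⟨g, hg, hgw⟩ := reduceX α hα (fun j => (Nat.unpair j).1)
  set v : (ℕ → ℕ → ℕ) → ℕ → ℕ := fun W j =>
    W (κ (Nat.unpair j).1) (Nat.unpair j).2 + (Nat.unpair j).1 with hv
  have hvc : Continuous v := by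
    refine continuous_pi fun j => ?_
    have h1 : Continuous fun W : ℕ → ℕ → ℕ => W (κ (Nat.unpair j).1) (Nat.unpair j).2 :=
      (continuous_apply (Nat.unpair j).2).comp (continuous_apply (κ (Nat.unpair j).1))
    exact h1.add continuous_const
  refine ⟨fun W => g (v W), hg.comp hvc, fun W i => ?_⟩
  constructor
  · intro hud
    by_contra hcon
    rw [tendsto_atTop_atTop] at hcon
    push Not at hcon
    obtain ⟨e, he⟩ := hcon
    refine (hgw (v W) i).2 ⟨e + i, fun J => ?_⟩ hud
    obtain ⟨m, hm, hme⟩ := he J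
    refine ⟨Nat.pair i m, hm.trans (Nat.right_le_pair i m), ?_, ?_⟩
    · rw [Nat.unpair_pair]
    · simp only [hv, Nat.unpair_pair]
      omega
  · intro ht
    refine (hgw (v W) i).1 fun e => ?_
    obtain ⟨M, hM⟩ := tendsto_atTop_atTop.1 ht e
    refine ⟨Nat.pair e M, fun j hj hjrel => ?_⟩
    have h1 : κ (Nat.unpair j).1 = κ i := hκrel _ _ hjrel
    simp only [hv]
    rw [h1]
    by_cases h2 : e ≤ (Nat.unpair j).1
    · omega
    · have h3 : M ≤ (Nat.unpair j).2 := by
        by_contra h4
        have e1 : Nat.pair (Nat.unpair j).1 (Nat.unpair j).2 < Nat.pair (Nat.unpair j).1 M :=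
          Nat.pair_lt_pair_right _ (by omega)
        have e2 : Nat.pair (Nat.unpair j).1 M < Nat.pair e M :=
          Nat.pair_lt_pair_left _ (by omega)
        rw [Nat.pair_unpair] at e1
        omega
      have := hM _ h3
      omega

/-- The simultaneous reduction for an enumerated family of bases. -/
theorem reduce_sets (α : ℕ → ℝ) (hα : ∀ i, 1 < |α i|) (Y : Type) [TopologicalSpace Y]
    [PolishSpace Y] (hY : IsZeroDimensional Y) (B : ℕ → Set Y) (hB : ∀ i, IsPiThree (B i))
    (hrel : ∀ i i', rel α i i' → B i = B i') :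
    ∃ f : Y → ℝ, Continuous f ∧ ∀ i, f ⁻¹' NormalTo (α i) = B i := by
  classical
  obtain ⟨e, he⟩ := exists_inducing Y hY
  have hex : ∀ i, ∃ m, rel α m i := fun i => ⟨i, rel_refl hα i⟩
  set κ : ℕ → ℕ := fun i => Nat.find (hex i) with hκ
  have hκ1 : ∀ i, rel α (κ i) i := fun i => Nat.find_spec (hex i)
  have hκle : ∀ i i', rel α i i' → κ i' ≤ κ i := fun i i' h =>
    Nat.find_min' (hex i') (rel_trans hα (hκ1 i) h)
  have hκrel : ∀ i i', rel α i i' → κ i = κ i' := fun i i' h =>
    le_antisymm (hκle i' i (rel_symm h)) (hκle i i' h)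
  have hred : ∀ i, ∃ h : Y → ℕ → ℕ, Continuous h ∧ ∀ x, x ∈ B i ↔ Tendsto (h x) atTop atTop := by
    intro i
    obtain ⟨G, hG, hBG⟩ := hB i
    rw [hBG]
    exact reduce_closed e he G hG
  choose h hh hhB using hred
  obtain ⟨g, hg, hgW⟩ := reduce_all α hα κ hκrel
  refine ⟨fun y => g (fun n => h n y), hg.comp (continuous_pi hh), fun i => ?_⟩
  ext y
  rw [← hrel (κ i) i (hκ1 i)]
  rw [hhB]
  exact hgW (fun n => h n y) i

/-- Two real bases are in the same class: the ratio of the logarithms of their absolute values is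
rational. -/
def SameClass (α β : ℝ) : Prop := ∃ q : ℚ, (q : ℝ) = Real.log |α| / Real.log |β|

theorem reduce_set (A : Set ℝ) (hA : A.Countable) (hA1 : ∀ α ∈ A, 1 < |α|)
    (Y : Type) [TopologicalSpace Y] [PolishSpace Y] (hY : IsZeroDimensional Y)
    (B : ℝ → Set Y) (hB : ∀ α ∈ A, IsPiThree (B α))
    (hrel : ∀ α ∈ A, ∀ β ∈ A, SameClass α β → B α = B β) :
    ∃ f : Y → ℝ, Continuous f ∧ ∀ α ∈ A, f ⁻¹' NormalTo α = B α := by
  rcases A.eq_empty_or_nonempty with rfl | hne
  · exact ⟨fun _ => 0, continuous_const, fun α hα => absurd hα (Set.notMem_empty α)⟩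
  · obtain ⟨a, rfl⟩ := hA.exists_eq_range hne
    have ha : ∀ i, a i ∈ Set.range a := fun i => ⟨i, rfl⟩
    obtain ⟨f, hf, hfB⟩ := reduce_sets a (fun i => hA1 _ (ha i)) Y hY (fun i => B (a i))
      (fun i => hB _ (ha i)) (fun i i' h => by
        refine (hrel _ (ha i') _ (ha i) ?_).symm
        exact (rel_iff a i i').1 h)
    refine ⟨f, hf, ?_⟩
    rintro _ ⟨i, rfl⟩
    exact hfB i

theorem isPiThree_normalTo (α : ℝ) : IsPiThree (NormalTo α) :=
  ud_piThree (fun (ξ : ℝ) (n : ℕ) => ξ * α ^ n) (fun n => by fun_prop)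

theorem isPiThree_iInter {X : Type} [TopologicalSpace X] (B : ℕ → Set X)
    (hB : ∀ i, IsPiThree (B i)) : IsPiThree (⋂ i, B i) := by
  choose F hF hAF using hB
  refine ⟨fun m j => F (Nat.unpair m).1 (Nat.unpair m).2 j, fun m j => hF _ _ _, ?_⟩
  ext ξ
  simp only [hAF, Set.mem_iInter]
  constructor
  · intro h m
    exact h _ _
  · intro h i j
    have := h (Nat.pair i j)
    simpa using this

theorem piThreeComplete_iInter (A : Set ℝ) (hA : A.Countable) (hne : A.Nonempty)
    (hA1 : ∀ α ∈ A, 1 < |α|) : PiThreeComplete (⋂ α ∈ A, NormalTo α) := by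
  constructor
  · obtain ⟨a, rfl⟩ := hA.exists_eq_range hne
    rw [Set.biInter_range]
    exact isPiThree_iInter _ fun i => isPiThree_normalTo _
  · intro Y _ _ hY B hB
    obtain ⟨f, hf, hfB⟩ := reduce_set A hA hA1 Y hY (fun _ => B) (fun _ _ => hB)
      (fun _ _ _ _ _ => rfl)
    refine ⟨f, hf, ?_⟩
    rw [Set.preimage_iInter₂]
    obtain ⟨α, hα⟩ := hne
    ext y
    simp only [Set.mem_iInter]
    constructor
    · intro hy β hβ
      rw [hfB β hβ]
      exact hy
    · intro hy
      have := hy α hα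
      rwa [hfB α hα] at this

theorem sigmaFourComplete_iUnion (A : Set ℝ) (hA : A.Countable)
    (hA1 : ∀ α ∈ A, 1 < |α|) (p : ℕ → ℝ) (hp : ∀ n, p n ∈ A)
    (hpq : ∀ m n, m ≠ n → ¬ SameClass (p m) (p n)) :
    SigmaFourComplete (⋃ α ∈ A, NormalTo α) := by
  classical
  constructor
  · obtain ⟨a, rfl⟩ := hA.exists_eq_range ⟨p 0, hp 0⟩
    have h1 := fun i => isPiThree_normalTo (a i)
    choose F hF hAF using h1
    refine ⟨F, hF, ?_⟩
    rw [Set.biUnion_range]
    exact Set.iUnion_congr fun i => hAF i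
  · rintro Y _ _ hY B ⟨G, hG, hB⟩
    have hpos : ∀ α ∈ A, Real.log |α| ≠ 0 := fun α hα => (Real.log_pos (hA1 α hα)).ne'
    have hsymm : ∀ α ∈ A, ∀ β ∈ A, SameClass α β → SameClass β α := by
      rintro α hα β hβ ⟨q, hq⟩
      refine ⟨q⁻¹, ?_⟩
      push_cast
      rw [hq, inv_div]
    have htrans : ∀ α ∈ A, ∀ β ∈ A, ∀ γ ∈ A, SameClass α β → SameClass β γ → SameClass α γ := by
      rintro α hα β hβ γ hγ ⟨q, hq⟩ ⟨q', hq'⟩
      refine ⟨q * q', ?_⟩
      have h1 := hpos β hβ
      have h2 := hpos γ hγ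
      push_cast
      rw [hq, hq']
      field_simp
    have hrefl : ∀ α ∈ A, SameClass α α := by
      intro α hα
      refine ⟨1, ?_⟩
      rw [div_self (hpos α hα)]
      norm_num
    have huniq : ∀ m m' : ℕ, ∀ α ∈ A, SameClass (p m) α → SameClass (p m') α → m = m' := by
      intro m m' α hα h h'
      by_contra hne
      exact hpq m m' hne (htrans _ (hp m) α hα _ (hp m') h (hsymm _ (hp m') _ hα h'))
    -- the set attached to a base
    set Q : ℕ → Set Y := fun n => ⋂ i, ⋃ j, G n i j with hQ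
    set C : ℝ → Set Y := fun α =>
      if h : ∃ m, SameClass (p m) α then Q h.choose else ∅ with hC
    have hC1 : ∀ m, ∀ α ∈ A, SameClass (p m) α → C α = Q m := by
      intro m α hα h
      have h' : ∃ m, SameClass (p m) α := ⟨m, h⟩
      simp only [hC]
      rw [dif_pos h', huniq _ _ α hα h'.choose_spec h]
    have hC2 : ∀ α, (¬ ∃ m, SameClass (p m) α) → C α = ∅ := by
      intro α h
      simp only [hC]
      rw [dif_neg h]
    have hCP : ∀ α ∈ A, IsPiThree (C α) := by
      intro α hα
      by_cases h : ∃ m, SameClass (p m) α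
      · obtain ⟨m, hm⟩ := h
        rw [hC1 m α hα hm]
        exact ⟨G m, hG m, rfl⟩
      · rw [hC2 α h]
        exact ⟨fun _ _ => ∅, fun _ _ => isClosed_empty, by simp only [Set.iUnion_const, Set.iInter_const]⟩
    have hCr : ∀ α ∈ A, ∀ β ∈ A, SameClass α β → C α = C β := by
      intro α hα β hβ hαβ
      by_cases h : ∃ m, SameClass (p m) α
      · obtain ⟨m, hm⟩ := h
        rw [hC1 m α hα hm, hC1 m β hβ (htrans _ (hp m) α hα β hβ hm hαβ)]
      · have h' : ¬ ∃ m, SameClass (p m) β := by
          rintro ⟨m, hm⟩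
          exact h ⟨m, htrans _ (hp m) β hβ α hα hm (hsymm α hα β hβ hαβ)⟩
        rw [hC2 α h, hC2 β h']
    obtain ⟨f, hf, hfB⟩ := reduce_set A hA hA1 Y hY C hCP hCr
    refine ⟨f, hf, ?_⟩
    rw [Set.preimage_iUnion₂, hB]
    ext y
    simp only [Set.mem_iUnion]
    constructor
    · rintro ⟨n, hn⟩
      refine ⟨p n, hp n, ?_⟩
      rw [hfB _ (hp n), hC1 n _ (hp n) (hrefl _ (hp n))]
      exact hn
    · rintro ⟨α, hα, hy⟩
      rw [hfB α hα] at hy
      by_cases h : ∃ m, SameClass (p m) α
      · obtain ⟨m, hm⟩ := h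
        rw [hC1 m α hα hm] at hy
        exact ⟨m, hy⟩
      · rw [hC2 α h] at hy
        exact absurd hy (Set.notMem_empty y)

theorem not_sameClass_primes (m n : ℕ) (hmn : m ≠ n) :
    ¬ SameClass ((Nat.nth Nat.Prime m : ℕ) : ℝ) ((Nat.nth Nat.Prime n : ℕ) : ℝ) := by
  rintro hr
  have hpm := Nat.prime_nth_prime m
  have hpn := Nat.prime_nth_prime n
  have h1 := Pool.Agent.H534R3.Rota.irr_logb (a := Nat.nth Nat.Prime m)
    (b := Nat.nth Nat.Prime n) hpm.one_lt hpn.one_lt (by
      intro u v hu hv huv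
      have h2 : Nat.nth Nat.Prime m ∣ Nat.nth Nat.Prime n ^ v := by
        rw [← huv]
        exact dvd_pow_self _ hu.ne'
      have h3 := hpm.dvd_of_dvd_pow h2
      have h4 := (Nat.prime_dvd_prime_iff_eq hpm hpn).1 h3
      exact hmn (Nat.nth_injective Nat.infinite_setOfPred_prime h4)) 1 le_rfl
  rw [pow_one] at h1
  obtain ⟨q, hq⟩ := hr
  rw [Nat.abs_cast, Nat.abs_cast] at hq
  exact h1 ⟨q, hq⟩

/-- **Simultaneous reductions for normality to countably many real bases.** Let `A` be a countable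
set of reals of absolute value greater than one. For all subsets `B α`, `α ∈ A`, of a
zero-dimensional Polish space that are countable intersections of countable unions of closed sets,
with `B α = B β` whenever the ratio of the logarithms of `|α|` and `|β|` is rational, there is a
single continuous `f` with `f ⁻¹' N(α) = B α` for all `α ∈ A`. Hence the union of the sets `N(α)`,
`α ∈ A`, is complete for the fourth additive class if `A` meets infinitely many classes, and the
intersection is complete for the third multiplicative class if `A` is nonempty. In particular this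
holds for the bases `α` such that `|α|` is a Pisot number. -/
theorem result :
    (∀ A : Set ℝ, A.Countable → (∀ α ∈ A, 1 < |α|) →
      (∀ (Y : Type) [TopologicalSpace Y] [PolishSpace Y], IsZeroDimensional Y →
        ∀ B : ℝ → Set Y, (∀ α ∈ A, IsPiThree (B α)) →
          (∀ α ∈ A, ∀ β ∈ A, SameClass α β → B α = B β) →
          ∃ f : Y → ℝ, Continuous f ∧ ∀ α ∈ A, f ⁻¹' NormalTo α = B α) ∧
      ((∃ p : ℕ → ℝ, (∀ n, p n ∈ A) ∧ ∀ m n, m ≠ n → ¬ SameClass (p m) (p n)) →
        SigmaFourComplete (⋃ α ∈ A, NormalTo α)) ∧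
      (A.Nonempty → PiThreeComplete (⋂ α ∈ A, NormalTo α))) ∧
    SigmaFourComplete (⋃ α ∈ {α : ℝ | IsPisot |α|}, NormalTo α) ∧
    PiThreeComplete (⋂ α ∈ {α : ℝ | IsPisot |α|}, NormalTo α) := by
  have hmain : ∀ A : Set ℝ, A.Countable → (∀ α ∈ A, 1 < |α|) →
      (∀ (Y : Type) [TopologicalSpace Y] [PolishSpace Y], IsZeroDimensional Y →
        ∀ B : ℝ → Set Y, (∀ α ∈ A, IsPiThree (B α)) →
          (∀ α ∈ A, ∀ β ∈ A, SameClass α β → B α = B β) →
          ∃ f : Y → ℝ, Continuous f ∧ ∀ α ∈ A, f ⁻¹' NormalTo α = B α) ∧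
      ((∃ p : ℕ → ℝ, (∀ n, p n ∈ A) ∧ ∀ m n, m ≠ n → ¬ SameClass (p m) (p n)) →
        SigmaFourComplete (⋃ α ∈ A, NormalTo α)) ∧
      (A.Nonempty → PiThreeComplete (⋂ α ∈ A, NormalTo α)) := by
    intro A hA hA1
    refine ⟨fun Y _ _ hY B hB hr => reduce_set A hA hA1 Y hY B hB hr, ?_, ?_⟩
    · rintro ⟨p, hp, hpq⟩
      exact sigmaFourComplete_iUnion A hA hA1 p hp hpq
    · intro hne
      exact piThreeComplete_iInter A hA hne hA1
  have hP1 : ∀ α ∈ {α : ℝ | IsPisot |α|}, 1 < |α| := fun α hα => hα.1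
  have hPp : ∀ n : ℕ, ((Nat.nth Nat.Prime n : ℕ) : ℝ) ∈ {α : ℝ | IsPisot |α|} := by
    intro n
    change IsPisot |((Nat.nth Nat.Prime n : ℕ) : ℝ)|
    rw [Nat.abs_cast]
    exact isPisot_nat _ (Nat.prime_nth_prime n).one_lt
  refine ⟨hmain, ?_, ?_⟩
  · exact (hmain _ countable_pisot hP1).2.1 ⟨_, hPp, not_sameClass_primes⟩
  · exact (hmain _ countable_pisot hP1).2.2 ⟨_, hPp 0⟩

end Pool.Agent.Results.MP_26ac3f_lc.SimultaneousReduction
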